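import Pool.Agent.helper79.SX.Spec

/-!
# Project sx: module DIR
-/

set_option autoImplicit false

open Finset

namespace Pool.Agent.SX

theorem DIR_zeta (h p : ℕ) (hp : 0 < p) (hh : 2 ^ h ≤ p ^ 10) :
    (h : ℝ) * (Real.log 2 / 10) ≤ Real.log p := by
  have h1 : (2 : ℝ) ^ h ≤ (p : ℝ) ^ 10 := by exact_mod_cast hh
  have h2 : Real.log ((2 : ℝ) ^ h) ≤ Real.log ((p : ℝ) ^ 10) :=
    Real.log_le_log (by positivity) h1
  rw [Real.log_pow, Real.log_pow] at h2
  push_cast at h2
  linarith

theorem DIR_Z (h p : ℕ) (hp : 0 < p) (hh : p ^ 10 < 2 ^ h) :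
    Real.log p ≤ (h : ℝ) * (Real.log 2 / 10) := by
  have hp' : (0 : ℝ) < p := by exact_mod_cast hp
  have h1 : (p : ℝ) ^ 10 ≤ (2 : ℝ) ^ h := by exact_mod_cast hh.le
  have h2 : Real.log ((p : ℝ) ^ 10) ≤ Real.log ((2 : ℝ) ^ h) :=
    Real.log_le_log (by positivity) h1
  rw [Real.log_pow, Real.log_pow] at h2
  push_cast at h2
  linarith

/-- partial sums -/
theorem DIR_partial (hSAD : SAD_stmt) (α κ : ℝ) (hLP : LP α κ) (h H : ℕ) (hh : 180 ≤ h)
    (i : ℕ) (hi : i ∈ Bl h H) :
    ∑ j ∈ (Bl h H).filter (fun j => j ≤ i), Real.log j / j ≤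
      α * (Real.log i - (h : ℝ) * (Real.log 2 / 10)) + κ := by
  obtain ⟨_, hBl, _⟩ := hSAD
  obtain ⟨hip, hi7, hi1, hi2⟩ := (hBl h H i).1 hi
  have hlog2 : 0 < Real.log 2 := Real.log_pos (by norm_num)
  have hi0 : (0 : ℝ) < i := by exact_mod_cast (by omega : 0 < i)
  set w : ℝ := Real.exp ((h : ℝ) * (Real.log 2 / 10)) with hw
  have hw18 : (2 : ℝ) ^ 18 ≤ w := by
    have e1 : (2 : ℝ) ^ 18 = Real.exp (18 * Real.log 2) := by
      rw [mul_comm, Real.exp_mul, Real.exp_log (by norm_num)]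
      norm_num
    rw [e1, hw]
    apply Real.exp_le_exp.2
    have : (180 : ℝ) ≤ h := by exact_mod_cast hh
    nlinarith
  have hwi : w ≤ (i : ℝ) := by
    rw [hw, ← Real.le_log_iff_exp_le hi0]
    exact DIR_zeta h i (by omega) hi1
  have key := hLP w i hw18 hwi
  have hwpos : 0 < w := Real.exp_pos _
  rw [Real.log_div hi0.ne' hwpos.ne', hw, Real.log_exp] at key
  refine le_trans ?_ key
  apply Finset.sum_le_sum_of_subset_of_nonneg
  · intro j hj
    rw [Finset.mem_filter] at hj
    obtain ⟨hjF, hji⟩ := hj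
    obtain ⟨hjp, hj7, hj1, hj2⟩ := (hBl h H j).1 hjF
    unfold pc
    rw [Finset.mem_filter, Finset.mem_range]
    refine ⟨by rw [Nat.floor_natCast]; omega, hjp, ?_⟩
    have hj0 : (0 : ℝ) < j := by exact_mod_cast (by omega : 0 < j)
    rw [← Real.le_log_iff_exp_le hj0]
    exact DIR_zeta h j (by omega) hj1
  · intro j hj _
    unfold pc at hj
    rw [Finset.mem_filter] at hj
    have : (1 : ℝ) ≤ j := by exact_mod_cast hj.2.1.one_lt.le
    exact div_nonneg (Real.log_nonneg this) (by positivity)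

theorem DIR (hSAD : SAD_stmt) (hABL : ABL_stmt) : DIR_stmt := by
  intro α κ hα hκ hLP h H hh hhH
  have hlog2 : 0 < Real.log 2 := Real.log_pos (by norm_num)
  have hR : (180 : ℝ) ≤ h := by exact_mod_cast hh
  have hHR : (h : ℝ) ≤ H := by exact_mod_cast hhH
  set ζ : ℝ := (h : ℝ) * (Real.log 2 / 10) with hζ
  set Z : ℝ := (H : ℝ) * (Real.log 2 / 10) with hZ
  have hζ0 : 0 < ζ := by positivity
  have hζZ : ζ ≤ Z := by
    rw [hζ, hZ]
    apply mul_le_mul_of_nonneg_right hHR (by positivity)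
  have hZ0 : 0 < Z := lt_of_lt_of_le hζ0 hζZ
  have hBl := hSAD.2.1
  have key := hABL (Bl h H) (fun p => Real.log p) (fun p => Real.log p / p) ζ Z α κ
    (fun s => 1 / s - 1 / Z) hζZ hα hκ ?_ ?_ ?_ ?_ ?_
  · have e1 : ∑ p ∈ Bl h H, 1 / (p : ℝ) * (1 - Real.log p / Z) =
        ∑ i ∈ Bl h H, Real.log i / i * (1 / Real.log i - 1 / Z) := by
      apply Finset.sum_congr rfl
      intro p hp
      obtain ⟨hpp, hp7, _, _⟩ := (hBl h H p).1 hp
      have hp0 : (0 : ℝ) < p := by exact_mod_cast (by omega : 0 < p)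
      have hl : 0 < Real.log p := Real.log_pos (by exact_mod_cast (by omega : 1 < p))
      field_simp
    rw [e1]
    refine le_trans key ?_
    have hint : (∫ s in ζ..Z, (1 / s - 1 / Z)) = Real.log ((H : ℝ) / h) - 1 + (h : ℝ) / H := by
      have hii : IntervalIntegrable (fun s : ℝ => 1 / s) MeasureTheory.volume ζ Z := by
        apply ContinuousOn.intervalIntegrable
        intro s hs
        rw [Set.uIcc_of_le hζZ] at hs
        have : s ≠ 0 := by
          have := hs.1
          intro h0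
          rw [h0] at this
          linarith
        exact (continuousAt_const.div continuousAt_id this).continuousWithinAt
      rw [intervalIntegral.integral_sub hii intervalIntegrable_const, integral_one_div_of_pos hζ0 hZ0,
        intervalIntegral.integral_const]
      have hh0 : (h : ℝ) ≠ 0 := by positivity
      have hH0 : (H : ℝ) ≠ 0 := by
        have : (0 : ℝ) < H := by linarith
        exact this.ne'
      have e2 : Z / ζ = (H : ℝ) / h := by
        rw [hZ, hζ]
        field_simp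
      rw [e2, smul_eq_mul]
      have e3 : (Z - ζ) * (1 / Z) = 1 - (h : ℝ) / H := by
        rw [hZ, hζ]
        field_simp
      rw [e3]
      ring
    rw [hint]
    have hH0 : (0 : ℝ) < H := by linarith
    have hh0 : (0 : ℝ) < h := by linarith
    have e4 : 1 / ζ - 1 / Z = (1 - (h : ℝ) / H) * (10 / (h * Real.log 2)) := by
      rw [hZ, hζ]
      field_simp
    have e5 : 10 / ((h : ℝ) * Real.log 2) ≤ 14.4269505 / h := by
      rw [div_le_div_iff₀ (by positivity) hh0]
      have := Real.log_two_gt_d9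
      nlinarith
    have e6 : 0 ≤ 1 - (h : ℝ) / H := by
      rw [sub_nonneg, div_le_one hH0]
      exact hHR
    rw [e4]
    have e8 : κ * ((1 - (h : ℝ) / H) * (10 / (h * Real.log 2))) ≤
        κ * (1 - (h : ℝ) / H) * (14.4269505 / h) := by
      rw [mul_assoc]
      exact mul_le_mul_of_nonneg_left (mul_le_mul_of_nonneg_left e5 e6) hκ
    linarith
  · intro p hp q hq hpq
    have hp' := (hBl h H p).1 hp
    exact Real.log_lt_log (by exact_mod_cast (by omega : 0 < p)) (by exact_mod_cast hpq)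
  · intro p hp
    obtain ⟨hpp, hp7, hp1, hp2⟩ := (hBl h H p).1 hp
    exact ⟨DIR_zeta h p (by omega) hp1, DIR_Z H p (by omega) hp2⟩
  · intro s hs t ht hst
    have : 0 < s := lt_of_lt_of_le hζ0 hs.1
    have h3 := one_div_le_one_div_of_le this hst
    show 1 / t - 1 / Z ≤ 1 / s - 1 / Z
    linarith
  · intro s hs
    have hs0 : 0 < s := lt_of_lt_of_le hζ0 hs.1
    have h3 := one_div_le_one_div_of_le hs0 hs.2
    show 0 ≤ 1 / s - 1 / Z
    linarith
  · intro i hi
    exact DIR_partial hSAD α κ hLP h H hh i hi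

end Pool.Agent.SX
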